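import Pool.Agent.Lib.MP_b5021c_nt.IfaceG

/-! H3A: numerical contradiction, disjoint case. -/

namespace Pool.Agent.B5.H51

open Complex

/-- points close to one inside the right half plane direction -/
theorem norm_one_sub_lt (s φ : ℝ) (hs : 0 < s) (h : s < 2 * Real.cos φ) :
    ‖(1 : ℂ) - (s : ℂ) * Complex.exp (φ * I)‖ < 1 := by
  have hre : ((1 : ℂ) - (s : ℂ) * Complex.exp (φ * I)).re = 1 - s * Real.cos φ := by
    rw [Complex.sub_re, Complex.one_re, Complex.re_ofReal_mul, Complex.exp_ofReal_mul_I_re]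
  have him : ((1 : ℂ) - (s : ℂ) * Complex.exp (φ * I)).im = - (s * Real.sin φ) := by
    rw [Complex.sub_im, Complex.one_im, Complex.im_ofReal_mul, Complex.exp_ofReal_mul_I_im]
    ring
  have hsq : ‖(1 : ℂ) - (s : ℂ) * Complex.exp (φ * I)‖ ^ 2 < 1 := by
    rw [← Complex.normSq_eq_norm_sq, Complex.normSq_apply, hre, him]
    have h1 := Real.sin_sq_add_cos_sq φ
    have h2 : (1 - s * Real.cos φ) * (1 - s * Real.cos φ) + -(s * Real.sin φ) * -(s * Real.sin φ) =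
        1 - s * (2 * Real.cos φ) + s ^ 2 * (Real.sin φ ^ 2 + Real.cos φ ^ 2) := by ring
    rw [h2, h1]
    nlinarith [mul_pos hs (sub_pos.mpr h)]
  nlinarith [norm_nonneg ((1 : ℂ) - (s : ℂ) * Complex.exp (φ * I))]

theorem h3a : H3aS := by
  intro V B hV hB
  set ρ : ℂ := B / V with hρ
  have hρ0 : ρ ≠ 0 := div_ne_zero hB hV
  set θ : ℝ := Complex.arg ρ with hθ
  have hθ1 : -Real.pi < θ := Complex.neg_pi_lt_arg ρ
  have hθ2 : θ ≤ Real.pi := Complex.arg_le_pi ρ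
  have hr : 0 < ‖ρ‖ := norm_pos_iff.mpr hρ0
  have hpi := Real.pi_pos
  have hc1 : 0 < Real.cos (3 * θ / 8) := by
    apply Real.cos_pos_of_mem_Ioo
    constructor <;> linarith
  have hc2 : 0 < Real.cos (-(θ / 4)) := by
    apply Real.cos_pos_of_mem_Ioo
    constructor <;> linarith
  obtain ⟨ε, hε0, hε1, hε2⟩ : ∃ ε : ℝ, 0 < ε ∧ ε < 2 * Real.cos (3 * θ / 8) ∧
      ε ^ 2 / ‖ρ‖ < 2 * Real.cos (-(θ / 4)) := by
    set c1 := Real.cos (3 * θ / 8)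
    set c2 := Real.cos (-(θ / 4))
    refine ⟨min 1 (min c1 (‖ρ‖ * c2)), ?_, ?_, ?_⟩
    · exact lt_min one_pos (lt_min hc1 (mul_pos hr hc2))
    · have := min_le_right 1 (min c1 (‖ρ‖ * c2))
      have := min_le_left c1 (‖ρ‖ * c2)
      linarith
    · set m := min 1 (min c1 (‖ρ‖ * c2)) with hm
      have h0 : 0 < m := lt_min one_pos (lt_min hc1 (mul_pos hr hc2))
      have h1 : m ≤ 1 := min_le_left _ _
      have h2 : m ≤ ‖ρ‖ * c2 := (min_le_right _ _).trans (min_le_right _ _)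
      rw [div_lt_iff₀ hr]
      nlinarith [mul_pos hr hc2]
  set u : ℂ := (ε : ℂ) * Complex.exp ((3 * θ / 8 : ℝ) * I) with hu
  have hu1 : ‖(1 : ℂ) - u‖ < 1 := norm_one_sub_lt ε _ hε0 hε1
  have hexp : Complex.exp ((3 * θ / 8 : ℝ) * I) ^ 2 =
      Complex.exp ((-(θ / 4) : ℝ) * I) * Complex.exp ((θ : ℝ) * I) := by
    rw [← Complex.exp_nat_mul, ← Complex.exp_add]
    congr 1
    push_cast
    ring
  have hpol : (‖ρ‖ : ℂ) * Complex.exp ((θ : ℝ) * I) = ρ := Complex.norm_mul_exp_arg_mul_I ρ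
  have hrc : (‖ρ‖ : ℂ) ≠ 0 := by exact_mod_cast hr.ne'
  have hu2 : u ^ 2 = ρ * (((ε ^ 2 / ‖ρ‖ : ℝ) : ℂ) * Complex.exp ((-(θ / 4) : ℝ) * I)) := by
    have hq : ρ * (((ε ^ 2 / ‖ρ‖ : ℝ) : ℂ) * Complex.exp ((-(θ / 4) : ℝ) * I)) =
        (‖ρ‖ : ℂ) * Complex.exp ((θ : ℝ) * I) *
          (((ε ^ 2 / ‖ρ‖ : ℝ) : ℂ) * Complex.exp ((-(θ / 4) : ℝ) * I)) := by rw [hpol]
    rw [hq, hu, mul_pow, hexp, Complex.ofReal_div, Complex.ofReal_pow]
    generalize Complex.exp ((-(θ / 4) : ℝ) * I) = E1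
    generalize Complex.exp ((θ : ℝ) * I) = E2
    generalize (‖ρ‖ : ℂ) = R at hrc
    field_simp
  have ht : ‖(1 : ℂ) - ((ε ^ 2 / ‖ρ‖ : ℝ) : ℂ) * Complex.exp ((-(θ / 4) : ℝ) * I)‖ < 1 :=
    norm_one_sub_lt _ _ (by positivity) hε2
  refine ⟨1 - u, 1 - u, 1 - ((ε ^ 2 / ‖ρ‖ : ℝ) : ℂ) * Complex.exp ((-(θ / 4) : ℝ) * I),
    hu1, hu1, ht, ?_⟩
  have hBV : B = ρ * V := by rw [hρ]; field_simp
  have e1 : (1 - (1 - u)) * (1 - (1 - u)) = u ^ 2 := by ring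
  rw [e1, hu2, hBV]
  ring

end Pool.Agent.B5.H51
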